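import Mathlib

/-!
# The robber locating game: a winning strategy may have to leave a forced-win subgraph

We give a graph `graphH` with 12 vertices and a graph `graphG` with 13 vertices such that

* every graph which contains `graphH` as a (not necessarily induced) subgraph is non-locatable;
* `graphG` contains `graphH` as an induced subgraph, but the cop has a strategy on `graphG` which
  locates within a bounded number of rounds every robber who stays in a copy of `graphH`,
  induced or not. So no winning strategy of the robber on `graphG` stays in a copy of `graphH`.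

The proof of the first part is a case distinction (`tree`) on a few distances between the vertices
of the copy of `graphH`: a distance is at least two, or we have an edge; a distance is at least
three, or there is a common neighbour. Every case contains one of 18 configurations (`libC`) of
vertices, edges and lower bounds for distances, on which the robber wins whatever the rest of the
graph is. This is shown by a closed family of masks (sets of possible positions before a probe):
for every set of the family and every function on the vertices which could be the list of the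
distances to a probe, two possible positions have the same value, and the neighbours of the
possible positions with this value contain again a set of the family (`go`, `certOK`).

The strategy of the cop is a table (`table`): a state consists of the set `S` of all possible
positions of the robber and the set `C` of those positions which are possible if he has stayed in
`graphH`.
-/

set_option autoImplicit false

namespace Pool.Agent.Results.MP_03a3ac_co.MustLeave

universe u

variable {V : Type u}

/-- The list of the first `t` answers, if the cop follows the strategy `σ` (a function which gives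
the next probe from the list of the answers so far) and the robber follows the walk `x`.
The answer in round `t + 1` is the distance from `x t` to the probe. -/
noncomputable def answers (G : SimpleGraph V) (σ : List ℕ∞ → V) (x : ℕ → V) : ℕ → List ℕ∞
  | 0 => []
  | t + 1 => answers G σ x t ++ [G.edist (x t) (σ (answers G σ x t))]

/-- The first `t` moves of the walk `x` are legal: in each of them the robber stays where he is or
moves to a neighbour, and he does not move to the vertex which was just probed. -/
def LegalUpTo (G : SimpleGraph V) (σ : List ℕ∞ → V) (x : ℕ → V) (t : ℕ) : Prop :=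
  ∀ s < t, (x (s + 1) = x s ∨ G.Adj (x s) (x (s + 1))) ∧ x (s + 1) ≠ σ (answers G σ x s)

/-- The robber following the walk `x` is located in round `t + 1`: every legal walk which gives
the same answers in the first `t + 1` rounds is at time `t` at the vertex `x t`. -/
def LocatedAt (G : SimpleGraph V) (σ : List ℕ∞ → V) (x : ℕ → V) (t : ℕ) : Prop :=
  ∀ y : ℕ → V, LegalUpTo G σ y t → answers G σ y (t + 1) = answers G σ x (t + 1) → y t = x t

/-- The cop has a strategy which locates the robber within a bounded number of rounds, whatever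
he does. -/
def Locatable (G : SimpleGraph V) : Prop :=
  ∃ (σ : List ℕ∞ → V) (T : ℕ), ∀ x : ℕ → V, LegalUpTo G σ x T → ∃ t ≤ T, LocatedAt G σ x t

/-- The robber (who knows the strategy of the cop) has a winning strategy which stays in `X`:
against every strategy of the cop there is an infinite legal walk in `X` on which he is never
located. -/
def RobberWinsIn (G : SimpleGraph V) (X : Set V) : Prop :=
  ∀ σ : List ℕ∞ → V, ∃ x : ℕ → V, (∀ t, LegalUpTo G σ x t) ∧ (∀ t, x t ∈ X) ∧
    ∀ t, ¬ LocatedAt G σ x t

/-- The cop has a strategy which locates within a bounded number of rounds every robber who stays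
in `X`. -/
def CopBeats (G : SimpleGraph V) (X : Set V) : Prop :=
  ∃ (σ : List ℕ∞ → V) (T : ℕ), ∀ x : ℕ → V, LegalUpTo G σ x T → (∀ s ≤ T, x s ∈ X) →
    ∃ t ≤ T, LocatedAt G σ x t

/-! ### General facts on answers -/

lemma length_answers (G : SimpleGraph V) (σ : List ℕ∞ → V) (x : ℕ → V) (t : ℕ) :
    (answers G σ x t).length = t := by
  induction t with
  | zero => rfl
  | succ t ih => simp [answers, ih]

lemma take_answers (G : SimpleGraph V) (σ : List ℕ∞ → V) (x : ℕ → V) {s t : ℕ} (h : s ≤ t) :
    (answers G σ x t).take s = answers G σ x s := by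
  induction t with
  | zero =>
    have : s = 0 := by omega
    subst this; rfl
  | succ t ih =>
    rcases Nat.lt_or_ge t s with h1 | h1
    · have : s = t + 1 := by omega
      subst this
      rw [List.take_of_length_le]
      rw [length_answers]
    · rw [answers, List.take_append_of_le_length]
      · exact ih h1
      · rw [length_answers]; exact h1

lemma answers_congr (G : SimpleGraph V) (σ : List ℕ∞ → V) (x y : ℕ → V) (t : ℕ)
    (h : ∀ s < t, x s = y s) : answers G σ x t = answers G σ y t := by
  induction t with
  | zero => rfl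
  | succ t ih =>
    have h1 : answers G σ x t = answers G σ y t := ih (fun s hs => h s (by omega))
    rw [answers, answers, h1, h t (by omega)]

lemma LegalUpTo.mono {G : SimpleGraph V} {σ : List ℕ∞ → V} {x : ℕ → V} {s t : ℕ}
    (h : LegalUpTo G σ x t) (hs : s ≤ t) : LegalUpTo G σ x s :=
  fun r hr => h r (by omega)

/-- `v` is a possible position of the robber at time `t`, after the answers `h`. -/
def Pre (G : SimpleGraph V) (σ : List ℕ∞ → V) (t : ℕ) (h : List ℕ∞) (v : V) : Prop :=
  ∃ x : ℕ → V, LegalUpTo G σ x t ∧ answers G σ x t = h ∧ x t = v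

lemma Pre.step {G : SimpleGraph V} {σ : List ℕ∞ → V} {t : ℕ} {h : List ℕ∞} {v w : V}
    (hp : Pre G σ t h v) (hw : w = v ∨ G.Adj v w) (hne : w ≠ σ h) :
    Pre G σ (t + 1) (h ++ [G.edist v (σ h)]) w := by
  obtain ⟨x, hl, ha, hx⟩ := hp
  refine ⟨fun s => if s = t + 1 then w else x s, ?_, ?_, by simp⟩
  · intro s hs
    have hc : answers G σ (fun s => if s = t + 1 then w else x s) s = answers G σ x s := by
      apply answers_congr
      intro r hr
      have : r ≠ t + 1 := by omega
      simp [this]
    rw [hc]
    rcases Nat.lt_or_ge s t with h1 | h1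
    · have e1 : s + 1 ≠ t + 1 := by omega
      have e2 : s ≠ t + 1 := by omega
      simp only [e1, e2, if_false]
      exact hl s h1
    · have e1 : s = t := by omega
      subst e1
      have e2 : s ≠ s + 1 := by omega
      simp only [e2, if_false, if_true]
      rw [ha, hx]
      exact ⟨hw, hne⟩
  · rw [answers]
    have hc : answers G σ (fun s => if s = t + 1 then w else x s) t = answers G σ x t := by
      apply answers_congr
      intro r hr
      have : r ≠ t + 1 := by omega
      simp [this]
    rw [hc, ha]
    have : t ≠ t + 1 := by omega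
    simp only [this, if_false, hx]

/-- After the answers `h` (in `t + 1` rounds) there are two possible positions at time `t`. -/
def Amb (G : SimpleGraph V) (σ : List ℕ∞ → V) (t : ℕ) (h : List ℕ∞) : Prop :=
  ∃ x y : ℕ → V, LegalUpTo G σ x t ∧ LegalUpTo G σ y t ∧ answers G σ x (t + 1) = h ∧
    answers G σ y (t + 1) = h ∧ x t ≠ y t

lemma Pre.amb {G : SimpleGraph V} {σ : List ℕ∞ → V} {t : ℕ} {h : List ℕ∞} {v w : V}
    (hv : Pre G σ t h v) (hw : Pre G σ t h w) (hne : v ≠ w)
    (he : G.edist v (σ h) = G.edist w (σ h)) : Amb G σ t (h ++ [G.edist v (σ h)]) := by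
  obtain ⟨x, hl, ha, hx⟩ := hv
  obtain ⟨y, hl', ha', hy⟩ := hw
  refine ⟨x, y, hl, hl', ?_, ?_, ?_⟩
  · rw [answers, ha, hx]
  · rw [answers, ha', hy, he]
  · rw [hx, hy]; exact hne

/-- If the cop can always be kept in the dark, the graph is not locatable. -/
lemma not_locatable_of_amb (G : SimpleGraph V)
    (H : ∀ σ : List ℕ∞ → V, ∀ T : ℕ, ∃ h : List ℕ∞, ∀ t ≤ T, Amb G σ t (h.take (t + 1))) :
    ¬ Locatable G := by
  rintro ⟨σ, T, hT⟩
  obtain ⟨h, hh⟩ := H σ T
  obtain ⟨x, _, hl, _, hx, _, _⟩ := hh T le_rfl
  obtain ⟨t, ht, hloc⟩ := hT x hl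
  obtain ⟨y, z, hy, hz, hy', hz', hne⟩ := hh t ht
  have e : answers G σ x (t + 1) = h.take (t + 1) := by
    rw [← take_answers G σ x (by omega : t + 1 ≤ T + 1), hx, List.take_take]
    congr 1
    omega
  apply hne
  rw [hloc y hy (by rw [hy', e]), hloc z hz (by rw [hz', e])]


/-! ### A certificate that the robber wins on every graph which contains a given configuration -/

/-- Entry `i` of a list of masks. -/
def gt (A : List ℕ) (i : ℕ) : ℕ := A.getD i 0

/-- A table of small numbers, the rows being packed with three bits per entry. -/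
def dd (D : List ℕ) (i j : ℕ) : ℕ := (gt D i >>> (3 * j)) &&& 7

lemma dd_le (D : List ℕ) (i j : ℕ) : dd D i j ≤ 7 := Nat.and_le_right

/-- The search used in the certificates. -/
def go (A D S : List ℕ) (q : ℕ) (lo hi : ℕ → ℕ) : List ℕ → List (ℕ × ℕ) → Bool
  | [], _ => false
  | v :: rest, asg =>
    let a := asg.foldl (fun m p => max m (p.2 - dd D v p.1)) (lo v)
    let b := asg.foldl (fun m p => min m (p.2 + dd D v p.1)) (hi v)
    (List.range (b + 1 - a)).all fun k =>
      (let cl := asg.filter (fun p => p.2 == a + k)
       !cl.isEmpty && (let N := cl.foldl (fun m p => m ||| gt A p.1) (gt A v)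
         S.any (fun s => (s &&& N == s) && !(s.testBit q)))) ||
      go A D S q lo hi rest ((v, a + k) :: asg)

lemma foldl_max_le (L : List (ℕ × ℕ)) (g : ℕ × ℕ → ℕ) (c : ℕ) :
    ∀ m, m ≤ c → (∀ p ∈ L, g p ≤ c) → L.foldl (fun m p => max m (g p)) m ≤ c := by
  induction L with
  | nil => intro m hm _; simpa using hm
  | cons p L ih =>
    intro m hm h
    rw [List.foldl_cons]
    apply ih
    · exact max_le hm (h p (by simp))
    · intro r hr; exact h r (by simp [hr])

lemma le_foldl_min (L : List (ℕ × ℕ)) (g : ℕ × ℕ → ℕ) (c : ℕ) :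
    ∀ m, c ≤ m → (∀ p ∈ L, c ≤ g p) → c ≤ L.foldl (fun m p => min m (g p)) m := by
  induction L with
  | nil => intro m hm _; simpa using hm
  | cons p L ih =>
    intro m hm h
    rw [List.foldl_cons]
    apply ih
    · exact le_min hm (h p (by simp))
    · intro r hr; exact h r (by simp [hr])

lemma testBit_foldl_or (L : List (ℕ × ℕ)) (g : ℕ × ℕ → ℕ) (i : ℕ) :
    ∀ m, (L.foldl (fun m p => m ||| g p) m).testBit i = true →
      m.testBit i = true ∨ ∃ p ∈ L, (g p).testBit i = true := by
  induction L with
  | nil => intro m hm; left; simpa using hm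
  | cons p L ih =>
    intro m hm
    rw [List.foldl_cons] at hm
    rcases ih _ hm with h1 | ⟨r, hr, h1⟩
    · rw [Nat.testBit_or, Bool.or_eq_true] at h1
      rcases h1 with h1 | h1
      · left; exact h1
      · right; exact ⟨p, by simp, h1⟩
    · right; exact ⟨r, by simp [hr], h1⟩

lemma testBit_of_and_eq {s N i : ℕ} (h : (s &&& N == s) = true) (hi : s.testBit i = true) :
    N.testBit i = true := by
  rw [beq_iff_eq] at h
  rw [← h, Nat.testBit_and, Bool.and_eq_true] at hi
  exact hi.2

lemma go_sound {A D S : List ℕ} {q : ℕ} {lo hi : ℕ → ℕ} {f : ℕ → ℕ} {P : ℕ → Prop}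
    (hL : ∀ u, P u → ∀ v, P v → f u ≤ f v + dd D v u ∧ f v ≤ f u + dd D v u) :
    ∀ (rest : List ℕ) (asg : List (ℕ × ℕ)), go A D S q lo hi rest asg = true →
      (∀ p ∈ asg, f p.1 = p.2) → (∀ v ∈ rest, lo v ≤ f v ∧ f v ≤ hi v) →
      (∀ p ∈ asg, P p.1) → (∀ v ∈ rest, P v) → (∀ p ∈ asg, p.1 ∉ rest) → rest.Nodup →
      ∃ s ∈ S, ∃ u v, P u ∧ P v ∧ u ≠ v ∧ f u = f v ∧ s.testBit q = false ∧
        ∀ i, s.testBit i = true → ∃ w, P w ∧ f w = f u ∧ (gt A w).testBit i = true := by
  intro rest
  induction rest with
  | nil => intro asg h; simp [go] at h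
  | cons v rest ih =>
    intro asg h hf hb hP hPr hn hnd
    rw [go] at h
    simp only [List.all_eq_true, List.mem_range] at h
    set a := asg.foldl (fun m p => max m (p.2 - dd D v p.1)) (lo v) with ha
    set b := asg.foldl (fun m p => min m (p.2 + dd D v p.1)) (hi v) with hbdef
    have hv : P v := hPr v (by simp)
    have h1 : a ≤ f v := by
      rw [ha]
      apply foldl_max_le asg (fun p => p.2 - dd D v p.1)
      · exact (hb v (by simp)).1
      · intro p hp
        have := (hL p.1 (hP p hp) v hv).1
        rw [hf p hp] at this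
        change p.2 - dd D v p.1 ≤ f v
        omega
    have h2 : f v ≤ b := by
      rw [hbdef]
      apply le_foldl_min asg (fun p => p.2 + dd D v p.1)
      · exact (hb v (by simp)).2
      · intro p hp
        have := (hL p.1 (hP p hp) v hv).2
        rw [hf p hp] at this
        exact this
    have h3 := h (f v - a) (by omega)
    have h4 : a + (f v - a) = f v := by omega
    rw [h4, Bool.or_eq_true] at h3
    rcases h3 with h3 | h3
    · rw [Bool.and_eq_true] at h3
      obtain ⟨h5, h6⟩ := h3
      rw [List.any_eq_true] at h6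
      obtain ⟨s, hs, h7⟩ := h6
      rw [Bool.and_eq_true] at h7
      have hne : asg.filter (fun p => p.2 == f v) ≠ [] := by
        intro h0
        rw [h0] at h5
        simp at h5
      obtain ⟨p, hp⟩ := List.exists_mem_of_ne_nil _ hne
      rw [List.mem_filter, beq_iff_eq] at hp
      refine ⟨s, hs, p.1, v, hP p hp.1, hv, ?_, ?_, ?_, ?_⟩
      · intro h8
        apply hn p hp.1
        rw [h8]; simp
      · rw [hf p hp.1, hp.2]
      · have := h7.2
        simpa using this
      · intro i hi
        have h8 := testBit_of_and_eq h7.1 hi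
        rcases testBit_foldl_or _ (fun p => gt A p.1) i _ h8 with h9 | ⟨r, hr, h9⟩
        · exact ⟨v, hv, by rw [hf p hp.1, hp.2], h9⟩
        · rw [List.mem_filter, beq_iff_eq] at hr
          exact ⟨r.1, hP r hr.1, by rw [hf p hp.1, hp.2, hf r hr.1, hr.2], h9⟩
    · rw [List.nodup_cons] at hnd
      apply ih _ h3
      · intro p hp
        rcases List.mem_cons.mp hp with rfl | hp
        · rfl
        · exact hf p hp
      · intro w hw; exact hb w (by simp [hw])
      · intro p hp
        rcases List.mem_cons.mp hp with rfl | hp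
        · exact hv
        · exact hP p hp
      · intro w hw; exact hPr w (by simp [hw])
      · intro p hp
        rcases List.mem_cons.mp hp with rfl | hp
        · exact hnd.1
        · intro h9; exact hn p hp (by simp [h9])
      · exact hnd.2

/-- The configuration with `n` vertices, edges `A` (masks of closed neighbourhoods) and lower
bounds two and three for the distances (`M2`, `M3`) forces the graph to be non-locatable. -/
def Obs (n : ℕ) (A M2 M3 : List ℕ) : Prop :=
  ∀ {V : Type u} (G : SimpleGraph V) (e : ℕ → V),
    (∀ i < n, ∀ j < n, e i = e j → i = j) →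
    (∀ i < n, ∀ j < n, i ≠ j → (gt A i).testBit j = true → G.Adj (e i) (e j)) →
    (∀ i < n, ∀ j < n, (gt M2 i).testBit j = true → 2 ≤ G.edist (e i) (e j)) →
    (∀ i < n, ∀ j < n, (gt M3 i).testBit j = true → 3 ≤ G.edist (e i) (e j)) →
    ¬ Locatable G

/-- The lower bound for the distance of `q` and `v`. -/
def lob (M2 M3 : List ℕ) (q v : ℕ) : ℕ :=
  if (gt M3 q).testBit v then 3 else if (gt M2 q).testBit v then 2 else 1

/-- The table `D` consists of upper bounds for the distances. -/
def dOK (n : ℕ) (A D : List ℕ) : Bool :=
  (List.range n).all fun i => (List.range n).all fun j =>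
    (i == j) || (List.range n).any fun m => (gt A i).testBit m && decide (dd D m j + 1 ≤ dd D i j)

/-- The elements different from `q` of the set with the mask `s`. -/
def bits (n s q : ℕ) : List ℕ := (List.range n).filter (fun i => s.testBit i && (i != q))

/-- The check of a certificate: `S` is the closed family of masks. -/
def certOK (n : ℕ) (A M2 M3 D S : List ℕ) : Bool :=
  dOK n A D && !S.isEmpty && S.all fun s =>
    ((List.range n).all fun q =>
      go A D S q (fun v => 8 + lob M2 M3 q v) (fun v => 8 + dd D v q) (bits n s q) []) &&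
    (match bits n s n with
      | [] => false
      | v :: r => go A D S n (fun _ => 0) (fun _ => 1000) r [(v, 8)])

lemma edist_le_dd {n : ℕ} {A D : List ℕ} (h : dOK n A D = true) {V : Type u} {G : SimpleGraph V}
    {e : ℕ → V} (hA : ∀ i < n, ∀ j < n, i ≠ j → (gt A i).testBit j = true → G.Adj (e i) (e j)) :
    ∀ k, ∀ i < n, ∀ j < n, dd D i j ≤ k → G.edist (e i) (e j) ≤ dd D i j := by
  intro k
  induction k with
  | zero =>
    intro i hi j hj hk
    by_cases hij : i = j
    · subst hij; simp
    · simp only [dOK, List.all_eq_true, List.mem_range, Bool.or_eq_true, beq_iff_eq,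
        List.any_eq_true, Bool.and_eq_true, decide_eq_true_eq] at h
      rcases h i hi j hj with h1 | ⟨m, _, _, h1⟩
      · exact absurd h1 hij
      · omega
  | succ k ih =>
    intro i hi j hj hk
    by_cases hij : i = j
    · subst hij; simp
    · simp only [dOK, List.all_eq_true, List.mem_range, Bool.or_eq_true, beq_iff_eq,
        List.any_eq_true, Bool.and_eq_true, decide_eq_true_eq] at h
      rcases h i hi j hj with h1 | ⟨m, hm, h2, h1⟩
      · exact absurd h1 hij
      · have hne : i ≠ m := by
          rintro rfl
          omega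
        have h3 := hA i hi m hm hne h2
        have h4 := ih m hm j hj (by omega)
        calc G.edist (e i) (e j) ≤ G.edist (e i) (e m) + G.edist (e m) (e j) :=
              SimpleGraph.edist_triangle
          _ ≤ 1 + (dd D m j : ℕ∞) := by
              gcongr
              rw [SimpleGraph.edist_eq_one_iff_adj.mpr h3]
          _ = ((1 + dd D m j : ℕ) : ℕ∞) := by push_cast; rfl
          _ ≤ dd D i j := by
              exact_mod_cast (by omega : 1 + dd D m j ≤ dd D i j)


lemma mem_bits {n s q i : ℕ} : i ∈ bits n s q ↔ i < n ∧ s.testBit i = true ∧ i ≠ q := by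
  simp [bits]

lemma bits_nodup (n s q : ℕ) : (bits n s q).Nodup :=
  (List.nodup_range).filter _

section

variable {V : Type u} {G : SimpleGraph V} {e : ℕ → V} {n : ℕ} {A M2 M3 D S : List ℕ}

lemma toNat_lip (h : dOK n A D = true)
    (hA : ∀ i < n, ∀ j < n, i ≠ j → (gt A i).testBit j = true → G.Adj (e i) (e j))
    (p : V) {i j : ℕ} (hi : i < n) (hj : j < n) :
    (G.edist (e i) p).toNat ≤ (G.edist (e j) p).toNat + dd D i j ∧
      (G.edist (e i) p = ⊤ → G.edist (e j) p = ⊤) := by
  have h1 : G.edist (e i) (e j) ≤ dd D i j := edist_le_dd h hA _ i hi j hj le_rfl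
  have h2 : G.edist (e i) p ≤ G.edist (e i) (e j) + G.edist (e j) p :=
    SimpleGraph.edist_triangle
  have h3 : G.edist (e i) p ≤ dd D i j + G.edist (e j) p := h2.trans (by gcongr)
  have h4 : G.edist (e i) p = ⊤ → G.edist (e j) p = ⊤ := by
    intro h5
    by_contra h6
    obtain ⟨k, hk⟩ := ENat.ne_top_iff_exists.mp h6
    rw [h5, ← hk, top_le_iff] at h3
    have : ((dd D i j + k : ℕ) : ℕ∞) = ⊤ := by push_cast; exact h3
    exact ENat.natCast_ne_top _ this
  refine ⟨?_, h4⟩
  by_cases h5 : G.edist (e j) p = ⊤
  · have h6 : G.edist (e i) p = ⊤ := by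
      by_contra h6
      have h7 : G.edist (e j) p ≤ G.edist (e j) (e i) + G.edist (e i) p :=
        SimpleGraph.edist_triangle
      rw [SimpleGraph.edist_comm (u := e j) (v := e i)] at h7
      obtain ⟨k, hk⟩ := ENat.ne_top_iff_exists.mp h6
      rw [h5, ← hk, top_le_iff] at h7
      have h8 : G.edist (e i) (e j) + k ≤ dd D i j + k := by gcongr
      rw [h7, top_le_iff] at h8
      have : ((dd D i j + k : ℕ) : ℕ∞) = ⊤ := by push_cast; exact h8
      exact ENat.natCast_ne_top _ this
    rw [h5, h6]; simp
  · by_cases h6 : G.edist (e i) p = ⊤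
    · exact absurd (h4 h6) h5
    · obtain ⟨k, hk⟩ := ENat.ne_top_iff_exists.mp h6
      obtain ⟨l, hl⟩ := ENat.ne_top_iff_exists.mp h5
      rw [← hk, ← hl] at h3 ⊢
      have h7 : (k : ℕ∞) ≤ ((dd D i j + l : ℕ) : ℕ∞) := by push_cast; exact h3
      have h8 : k ≤ dd D i j + l := by exact_mod_cast h7
      simp only [ENat.toNat_natCast]
      omega

/-- From the equality of the values of `toNat` we get the equality of the distances. -/
lemma edist_eq_of_toNat (h : dOK n A D = true)
    (hA : ∀ i < n, ∀ j < n, i ≠ j → (gt A i).testBit j = true → G.Adj (e i) (e j))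
    (p : V) {i j : ℕ} (hi : i < n) (hj : j < n)
    (hd : (G.edist (e i) p).toNat = (G.edist (e j) p).toNat) :
    G.edist (e i) p = G.edist (e j) p := by
  by_cases h6 : G.edist (e i) p = ⊤
  · rw [h6, (toNat_lip h hA p hi hj).2 h6]
  · by_cases h5 : G.edist (e j) p = ⊤
    · exact absurd ((toNat_lip h hA p hj hi).2 h5) h6
    · obtain ⟨k, hk⟩ := ENat.ne_top_iff_exists.mp h6
      obtain ⟨l, hl⟩ := ENat.ne_top_iff_exists.mp h5
      rw [← hk, ← hl] at hd ⊢
      simp only [ENat.toNat_natCast] at hd
      rw [hd]

lemma cert_step (h : certOK n A M2 M3 D S = true)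
    (inj : ∀ i < n, ∀ j < n, e i = e j → i = j)
    (hA : ∀ i < n, ∀ j < n, i ≠ j → (gt A i).testBit j = true → G.Adj (e i) (e j))
    (h2 : ∀ i < n, ∀ j < n, (gt M2 i).testBit j = true → 2 ≤ G.edist (e i) (e j))
    (h3 : ∀ i < n, ∀ j < n, (gt M3 i).testBit j = true → 3 ≤ G.edist (e i) (e j))
    (p : V) {s : ℕ} (hs : s ∈ S) :
    ∃ s' ∈ S, ∃ u v, (u < n ∧ s.testBit u = true) ∧ (v < n ∧ s.testBit v = true) ∧ u ≠ v ∧
      G.edist (e u) p = G.edist (e v) p ∧
      ∀ i < n, s'.testBit i = true → e i ≠ p ∧ ∃ w, (w < n ∧ s.testBit w = true) ∧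
        G.edist (e w) p = G.edist (e u) p ∧ (e i = e w ∨ G.Adj (e w) (e i)) := by
  simp only [certOK, Bool.and_eq_true, List.all_eq_true, List.mem_range] at h
  obtain ⟨⟨hD, _⟩, hall⟩ := h
  obtain ⟨hin, hfar⟩ := hall s hs
  have hDD : ∀ i < n, ∀ j < n, G.edist (e i) (e j) ≤ dd D i j := fun i hi j hj =>
    edist_le_dd hD hA _ i hi j hj le_rfl
  have adjw : ∀ w < n, ∀ i < n, (gt A w).testBit i = true → e i = e w ∨ G.Adj (e w) (e i) := by
    intro w hw i hi hb
    by_cases hwi : w = i
    · left; rw [hwi]
    · right; exact hA w hw i hi hwi hb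
  by_cases hq : ∃ q < n, e q = p
  · obtain ⟨q, hq, rfl⟩ := hq
    have hg := hin q hq
    have fin : ∀ i < n, ∃ k : ℕ, G.edist (e i) (e q) = k ∧ k ≤ dd D i q := by
      intro i hi
      have h4 := hDD i hi q hq
      have h5 : G.edist (e i) (e q) ≠ ⊤ := by
        intro h6
        rw [h6, top_le_iff] at h4
        exact ENat.natCast_ne_top _ h4
      obtain ⟨k, hk⟩ := ENat.ne_top_iff_exists.mp h5
      refine ⟨k, hk.symm, ?_⟩
      rw [← hk] at h4
      exact_mod_cast h4
    obtain ⟨s', hs', u, v, hu, hv, huv, hf, hbq, hrest⟩ :=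
      go_sound (f := fun i => 8 + (G.edist (e i) (e q)).toNat)
        (P := fun i => i < n ∧ s.testBit i = true ∧ i ≠ q) (D := D)
        (by
          intro u hu v hv
          have e1 := (toNat_lip hD hA (e q) hu.1 hv.1).1
          have e2 := (toNat_lip hD hA (e q) hv.1 hu.1).1
          have e3 : (G.edist (e u) (e q)).toNat ≤ (G.edist (e v) (e q)).toNat + dd D v u := by
            have e4 : G.edist (e u) (e v) ≤ dd D v u := by
              rw [SimpleGraph.edist_comm]; exact hDD v hv.1 u hu.1
            obtain ⟨k, hk, _⟩ := fin u hu.1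
            obtain ⟨l, hl, _⟩ := fin v hv.1
            have e5 : G.edist (e u) (e q) ≤ G.edist (e u) (e v) + G.edist (e v) (e q) :=
              SimpleGraph.edist_triangle
            rw [hk, hl] at e5 ⊢
            have e6 : (k : ℕ∞) ≤ ((dd D v u + l : ℕ) : ℕ∞) := by
              push_cast; exact e5.trans (by gcongr)
            have e7 : k ≤ dd D v u + l := by exact_mod_cast e6
            simp only [ENat.toNat_natCast]; omega
          constructor <;> omega)
        (bits n s q) [] hg (by simp)
        (by
          intro v hv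
          rw [mem_bits] at hv
          obtain ⟨k, hk, hkd⟩ := fin v hv.1
          have e1 : lob M2 M3 q v ≤ k := by
            have e2 : G.edist (e q) (e v) = k := by rw [SimpleGraph.edist_comm]; exact hk
            rw [lob]
            split_ifs with c1 c2
            · have := h3 q hq v hv.1 c1
              rw [e2] at this
              exact_mod_cast this
            · have := h2 q hq v hv.1 c2
              rw [e2] at this
              exact_mod_cast this
            · by_contra c3
              have c4 : k = 0 := by omega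
              rw [c4] at hk
              have c5 : e v = e q := by
                rw [Nat.cast_zero, SimpleGraph.edist_eq_zero_iff] at hk; exact hk
              exact hv.2.2 (inj v hv.1 q hq c5)
          change 8 + lob M2 M3 q v ≤ 8 + _ ∧ 8 + _ ≤ 8 + dd D v q
          rw [hk]
          simp only [ENat.toNat_natCast]
          omega)
        (by simp)
        (by intro v hv; exact mem_bits.mp hv)
        (by simp) (bits_nodup n s q)
    refine ⟨s', hs', u, v, ⟨hu.1, hu.2.1⟩, ⟨hv.1, hv.2.1⟩, huv, ?_, ?_⟩
    · apply edist_eq_of_toNat hD hA _ hu.1 hv.1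
      change 8 + _ = 8 + _ at hf
      omega
    · intro i hi hb
      refine ⟨?_, ?_⟩
      · intro h6
        have := inj i hi q hq h6
        rw [this, hbq] at hb
        exact Bool.noConfusion hb
      · obtain ⟨w, hw, hwf, hwb⟩ := hrest i hb
        refine ⟨w, ⟨hw.1, hw.2.1⟩, ?_, adjw w hw.1 i hi hwb⟩
        apply edist_eq_of_toNat hD hA _ hw.1 hu.1
        change 8 + _ = 8 + _ at hwf
        omega
  · push Not at hq
    rcases hb : bits n s n with _ | ⟨v0, r⟩
    · rw [hb] at hfar; exact absurd hfar (by simp)
    · rw [hb] at hfar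
      have hv0 : v0 < n ∧ s.testBit v0 = true ∧ v0 ≠ n := by
        rw [← mem_bits, hb]; simp
      have hr : ∀ v ∈ r, v < n ∧ s.testBit v = true ∧ v ≠ n := by
        intro v hv
        rw [← mem_bits, hb]; simp [hv]
      have hnd : (v0 :: r).Nodup := by rw [← hb]; exact bits_nodup n s n
      rw [List.nodup_cons] at hnd
      set g : ℕ → ℕ := fun i => (G.edist (e i) p).toNat with hgdef
      have lip : ∀ u < n, ∀ v < n, g u ≤ g v + dd D v u ∧ g v ≤ g u + dd D v u := by
        intro u hu v hv
        constructor
        · have e4 : G.edist (e u) (e v) ≤ dd D v u := by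
            rw [SimpleGraph.edist_comm]; exact hDD v hv u hu
          have e5 : G.edist (e u) p ≤ G.edist (e u) (e v) + G.edist (e v) p :=
              SimpleGraph.edist_triangle
          by_cases t1 : G.edist (e v) p = ⊤
          · have t2 : G.edist (e u) p = ⊤ := (toNat_lip hD hA p hv hu).2 t1
            change (G.edist (e u) p).toNat ≤ (G.edist (e v) p).toNat + _
            rw [t1, t2]; simp
          · by_cases t2 : G.edist (e u) p = ⊤
            · exact absurd ((toNat_lip hD hA p hu hv).2 t2) t1
            · obtain ⟨k, hk⟩ := ENat.ne_top_iff_exists.mp t2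
              obtain ⟨l, hl⟩ := ENat.ne_top_iff_exists.mp t1
              change (G.edist (e u) p).toNat ≤ (G.edist (e v) p).toNat + _
              rw [← hk, ← hl] at e5 ⊢
              have e6 : (k : ℕ∞) ≤ ((dd D v u + l : ℕ) : ℕ∞) := by
                push_cast; exact e5.trans (by gcongr)
              have e7 : k ≤ dd D v u + l := by exact_mod_cast e6
              simp only [ENat.toNat_natCast]; omega
        · exact (toNat_lip hD hA p hv hu).1
      have hdd : ∀ i j, dd D i j ≤ 7 := dd_le D
      obtain ⟨s', hs', u, v, hu, hv, huv, hf, hbq, hrest⟩ :=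
        go_sound (f := fun i => 8 + g i - g v0)
          (P := fun i => i < n ∧ s.testBit i = true ∧ i ≠ n) (D := D)
          (by
            intro u hu v hv
            have e1 := lip u hu.1 v hv.1
            have e2 := lip u hu.1 v0 hv0.1
            have e3 := lip v hv.1 v0 hv0.1
            have e4 := hdd v0 u
            have e5 := hdd v0 v
            have e6 := hdd v u
            change 8 + g u - g v0 ≤ 8 + g v - g v0 + dd D v u ∧
              8 + g v - g v0 ≤ 8 + g u - g v0 + dd D v u
            omega)
          r [(v0, 8)] hfar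
          (by
            intro p hp
            rw [List.mem_singleton] at hp
            subst hp
            change 8 + g v0 - g v0 = 8
            omega)
          (by
            intro v hv
            have e3 := lip v (hr v hv).1 v0 hv0.1
            have e5 := hdd v0 v
            change 0 ≤ _ ∧ 8 + g v - g v0 ≤ 1000
            omega)
          (by
            intro p hp
            rw [List.mem_singleton] at hp
            subst hp
            exact hv0)
          hr
          (by
            intro p hp
            rw [List.mem_singleton] at hp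
            subst hp
            exact hnd.1)
          hnd.2
      have back : ∀ u < n, ∀ v < n, 8 + g u - g v0 = 8 + g v - g v0 → g u = g v := by
        intro u hu v hv h9
        have e2 := lip u hu v0 hv0.1
        have e3 := lip v hv v0 hv0.1
        have e4 := hdd v0 u
        have e5 := hdd v0 v
        omega
      refine ⟨s', hs', u, v, ⟨hu.1, hu.2.1⟩, ⟨hv.1, hv.2.1⟩, huv, ?_, ?_⟩
      · exact edist_eq_of_toNat hD hA _ hu.1 hv.1 (back u hu.1 v hv.1 hf)
      · intro i hi hb2
        refine ⟨hq i hi, ?_⟩
        obtain ⟨w, hw, hwf, hwb⟩ := hrest i hb2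
        refine ⟨w, ⟨hw.1, hw.2.1⟩, ?_, adjw w hw.1 i hi hwb⟩
        exact edist_eq_of_toNat hD hA _ hw.1 hu.1 (back w hw.1 u hu.1 hwf)

end

/-- The certificate implies that the configuration forces non-locatability. -/
theorem obs_of_cert {n : ℕ} {A M2 M3 D S : List ℕ} (h : certOK n A M2 M3 D S = true) :
    Obs.{u} n A M2 M3 := by
  intro V G e inj hA h2 h3
  apply not_locatable_of_amb
  intro σ T
  have hne : ∃ s, s ∈ S := by
    simp only [certOK, Bool.and_eq_true] at h
    have := h.1.2
    rcases S with _ | ⟨s, S⟩
    · simp at this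
    · exact ⟨s, by simp⟩
  have key : ∀ t, ∃ l : List ℕ∞, l.length = t ∧
      (∃ s ∈ S, ∀ i < n, s.testBit i = true → Pre G σ t l (e i)) ∧
      ∀ r < t, Amb G σ r (l.take (r + 1)) := by
    intro t
    induction t with
    | zero =>
      obtain ⟨s, hs⟩ := hne
      refine ⟨[], rfl, ⟨s, hs, ?_⟩, by intro r hr; omega⟩
      intro i _ _
      exact ⟨fun _ => e i, by intro r hr; omega, rfl, rfl⟩
    | succ t ih =>
      obtain ⟨l, hl, ⟨s, hs, hp⟩, hamb⟩ := ih
      obtain ⟨s', hs', u, v, hu, hv, huv, hd, hrest⟩ :=
        cert_step h inj hA h2 h3 (σ l) hs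
      refine ⟨l ++ [G.edist (e u) (σ l)], by simp [hl], ⟨s', hs', ?_⟩, ?_⟩
      · intro i hi hb
        obtain ⟨hne', w, hw, hwd, hadj⟩ := hrest i hi hb
        have := (hp w hw.1 hw.2).step hadj hne'
        rw [hwd] at this
        exact this
      · intro r hr
        rcases Nat.lt_or_ge r t with h1 | h1
        · rw [List.take_append_of_le_length (by omega)]
          exact hamb r h1
        · have : r = t := by omega
          subst this
          rw [List.take_of_length_le (by simp [hl])]
          apply (hp u hu.1 hu.2).amb (hp v hv.1 hv.2) _ hd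
          intro h9
          exact huv (inj u hu.1 v hv.1 h9)
  obtain ⟨l, hl, _, hamb⟩ := key (T + 1)
  exact ⟨l, fun t ht => hamb t (by omega)⟩


/-! ### Trees of cases -/

/-- A list of pairs, coded as `16 * i + j`, read as a symmetric relation. -/
def rel (E : List ℕ) (i j : ℕ) : Bool := E.contains (16 * i + j) || E.contains (16 * j + i)

lemma rel_comm (E : List ℕ) (i j : ℕ) : rel E i j = rel E j i := by
  rw [rel, rel, Bool.or_comm]

lemma rel_cons {E : List ℕ} {a b i j : ℕ} (_ : a < 16) (_ : b < 16) (_ : i < 16)
    (_ : j < 16) (h : rel ((16 * a + b) :: E) i j = true) :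
    rel E i j = true ∨ (i = a ∧ j = b) ∨ (i = b ∧ j = a) := by
  simp only [rel, List.contains_cons, Bool.or_eq_true, beq_iff_eq] at h ⊢
  rcases h with (h | h) | (h | h)
  · right; left; omega
  · left; left; exact h
  · right; right; omega
  · left; right; exact h

/-- The vertices `e 0, ..., e (n - 1)` of `G` form the configuration with the edges `E` and the
lower bounds two and three for the distances of the pairs in `L2` and `L3`. -/
structure Sat {V : Type u} (G : SimpleGraph V) (e : ℕ → V) (n : ℕ) (E L2 L3 : List ℕ) :
    Prop where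
  le : n ≤ 16
  inj : ∀ i < n, ∀ j < n, e i = e j → i = j
  adj : ∀ i < n, ∀ j < n, rel E i j = true → G.Adj (e i) (e j)
  l2 : ∀ i < n, ∀ j < n, rel L2 i j = true → 2 ≤ G.edist (e i) (e j)
  l3 : ∀ i < n, ∀ j < n, rel L3 i j = true → 3 ≤ G.edist (e i) (e j)

/-- A case distinction; see `check`. -/
inductive Tree
  | leaf (k : ℕ) (φ : List ℕ)
  | bad
  | edge (i j : ℕ) (t1 t2 : Tree)
  | pair (t r : Tree)
  | two (i j : ℕ) (ws tz t3 : Tree)

/-- Entry of a list of trees, built with `pair`. -/
def Tree.nth : Tree → ℕ → Tree
  | .pair t _, 0 => t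
  | .pair _ r, k + 1 => r.nth k
  | _, _ => .bad

/-- The configuration is contradictory. -/
def contra (n : ℕ) (E L2 L3 : List ℕ) : Bool :=
  (List.range n).any fun i => (List.range n).any fun j =>
    (rel L2 i j && rel E i j) ||
    (rel L3 i j && (rel E i j || (List.range n).any fun m => rel E i m && rel E m j))

/-- A configuration: number of vertices, closed neighbourhoods, pairs at distance at least two,
pairs at distance at least three. -/
abbrev Conf := ℕ × List ℕ × List ℕ × List ℕ

/-- The map `φ` embeds the configuration `c`. -/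
def embOK (n : ℕ) (E L2 L3 : List ℕ) (c : Conf) (φ : List ℕ) : Bool :=
  (φ.length == c.1) && decide φ.Nodup && φ.all (fun a => decide (a < n)) &&
  (List.range c.1).all fun i => (List.range c.1).all fun j =>
    ((i == j) || !(gt c.2.1 i).testBit j || rel E (gt φ i) (gt φ j)) &&
    (!(gt c.2.2.1 i).testBit j || rel L2 (gt φ i) (gt φ j) || rel L3 (gt φ i) (gt φ j)) &&
    (!(gt c.2.2.2 i).testBit j || rel L3 (gt φ i) (gt φ j))

/-- The check of a case distinction. -/
def check (lib : List Conf) : ℕ → ℕ → List ℕ → List ℕ → List ℕ → Tree → Bool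
  | 0, _, _, _, _, _ => false
  | f + 1, n, E, L2, L3, t =>
    match t with
    | .leaf k φ =>
      match lib[k]? with
      | none => false
      | some c => embOK n E L2 L3 c φ
    | .bad => contra n E L2 L3
    | .pair _ _ => false
    | .edge i j t1 t2 =>
      decide (i < n) && decide (j < n) && (i != j) &&
      check lib f n ((16 * i + j) :: E) L2 L3 t1 && check lib f n E ((16 * i + j) :: L2) L3 t2
    | .two i j ws tz t3 =>
      decide (i < n) && decide (j < n) && (i != j) && decide (n < 16) && rel L2 i j &&
      ((List.range (n + 1)).all fun a => !rel E a n && !rel L2 a n && !rel L3 a n) &&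
      ((List.range n).all fun w => (w == i) || (w == j) ||
        check lib f n ((16 * w + i) :: (16 * w + j) :: E) L2 L3 (ws.nth w)) &&
      check lib f (n + 1) ((16 * n + i) :: (16 * n + j) :: E)
        (((List.range n).filter (fun a => rel L3 a i || rel L3 a j)).map (fun a => 16 * a + n) ++ L2)
        L3 tz &&
      check lib f n E L2 ((16 * i + j) :: L3) t3

lemma rel_append_map {l L : List ℕ} {n i j : ℕ} (hn : n < 16) (hi : i < 16) (hj : j < 16)
    (hl : ∀ a ∈ l, a < 16)
    (h : rel (l.map (fun a => 16 * a + n) ++ L) i j = true) :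
    rel L i j = true ∨ (i ∈ l ∧ j = n) ∨ (j ∈ l ∧ i = n) := by
  simp only [rel, List.contains_eq_mem, List.mem_append, List.mem_map, Bool.or_eq_true,
    decide_eq_true_eq] at h ⊢
  rcases h with (⟨a, ha, h⟩ | h) | (⟨a, ha, h⟩ | h)
  · have := hl a ha
    right; left
    have h1 : a = i := by omega
    subst h1
    exact ⟨ha, by omega⟩
  · left; left; exact h
  · have := hl a ha
    right; right
    have h1 : a = j := by omega
    subst h1
    exact ⟨ha, by omega⟩
  · left; right; exact h

lemma adj_of_edist_lt_two {V : Type u} {G : SimpleGraph V} {u v : V} (hne : u ≠ v)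
    (h : ¬ 2 ≤ G.edist u v) : G.Adj u v := by
  have h1 : G.edist u v < 2 := not_le.mp h
  obtain ⟨k, hk⟩ := ENat.ne_top_iff_exists.mp (ne_top_of_lt h1)
  rw [← hk] at h1
  have h2 : k < 2 := by exact_mod_cast h1
  have h3 : k ≠ 0 := by
    rintro rfl
    apply hne
    rw [Nat.cast_zero] at hk
    exact SimpleGraph.edist_eq_zero_iff.mp hk.symm
  have h4 : k = 1 := by omega
  subst h4
  exact SimpleGraph.edist_eq_one_iff_adj.mp (by rw [← hk]; rfl)

lemma exists_common_of_edist {V : Type u} {G : SimpleGraph V} {u v : V}
    (h2 : 2 ≤ G.edist u v) (h : ¬ 3 ≤ G.edist u v) : ∃ z, G.Adj z u ∧ G.Adj z v := by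
  have h1 : G.edist u v < 3 := not_le.mp h
  obtain ⟨k, hk⟩ := ENat.ne_top_iff_exists.mp (ne_top_of_lt h1)
  rw [← hk] at h1 h2
  have h3 : k < 3 := by exact_mod_cast h1
  have h4 : 2 ≤ k := by exact_mod_cast h2
  have h5 : k = 2 := by omega
  subst h5
  obtain ⟨p, hp⟩ := SimpleGraph.exists_walk_of_edist_eq_coe hk.symm
  match p, hp with
  | .cons ha (.cons hb .nil), _ => exact ⟨_, ha.symm, hb⟩

theorem check_sound (lib : List Conf) (hlib : ∀ c ∈ lib, Obs.{u} c.1 c.2.1 c.2.2.1 c.2.2.2) :
    ∀ (f n : ℕ) (E L2 L3 : List ℕ) (t : Tree), check lib f n E L2 L3 t = true →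
      ∀ {V : Type u} (G : SimpleGraph V) (e : ℕ → V), Sat G e n E L2 L3 → ¬ Locatable G := by
  intro f
  induction f with
  | zero => intro n E L2 L3 t h; simp [check] at h
  | succ f ih =>
    intro n E L2 L3 t h V G e hs
    have h16 := hs.le
    rcases t with ⟨k, φ⟩ | _ | ⟨i, j, t1, t2⟩ | ⟨t, r⟩ | ⟨i, j, ws, tz, t3⟩
    · -- leaf
      rw [check] at h
      rcases hk : lib[k]? with _ | c
      · rw [hk] at h; exact absurd h (by simp)
      · rw [hk] at h
        dsimp only at h
        have hc : c ∈ lib := List.mem_of_getElem? hk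
        simp only [embOK, Bool.and_eq_true, beq_iff_eq, decide_eq_true_eq, List.all_eq_true,
          List.mem_range, Bool.or_eq_true, Bool.not_eq_true'] at h
        obtain ⟨⟨⟨hlen, hnd⟩, hlt⟩, hall⟩ := h
        have hget : ∀ i (hi : i < c.1), gt φ i = φ[i]'(by omega) := by
          intro i hi
          rw [gt, List.getD_eq_getElem _ _ (by omega)]
        have hltn : ∀ i < c.1, gt φ i < n := by
          intro i hi
          rw [hget i hi]
          exact hlt _ (List.getElem_mem _)
        apply hlib c hc G (fun i => e (gt φ i))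
        · intro i hi j hj hij
          have h1 := hs.inj _ (hltn i hi) _ (hltn j hj) hij
          rw [hget i hi, hget j hj] at h1
          exact (List.Nodup.getElem_inj_iff hnd).mp h1
        · intro i hi j hj hij hb
          rcases (hall i hi j hj).1.1 with (h1 | h1) | h1
          · exact absurd h1 hij
          · rw [hb] at h1; exact absurd h1 (by simp)
          · exact hs.adj _ (hltn i hi) _ (hltn j hj) h1
        · intro i hi j hj hb
          rcases (hall i hi j hj).1.2 with (h1 | h1) | h1
          · rw [hb] at h1; exact absurd h1 (by simp)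
          · exact hs.l2 _ (hltn i hi) _ (hltn j hj) h1
          · exact le_trans (by norm_num) (hs.l3 _ (hltn i hi) _ (hltn j hj) h1)
        · intro i hi j hj hb
          rcases (hall i hi j hj).2 with h1 | h1
          · rw [hb] at h1; exact absurd h1 (by simp)
          · exact hs.l3 _ (hltn i hi) _ (hltn j hj) h1
    · -- contradiction
      exfalso
      rw [check] at h
      simp only [contra, List.any_eq_true, List.mem_range, Bool.or_eq_true,
        Bool.and_eq_true] at h
      obtain ⟨i, hi, j, hj, h | ⟨h3, h | ⟨m, hm, h, h'⟩⟩⟩ := h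
      · have h1 := hs.l2 i hi j hj h.1
        rw [SimpleGraph.edist_eq_one_iff_adj.mpr (hs.adj i hi j hj h.2)] at h1
        exact absurd h1 (by norm_num)
      · have h1 := hs.l3 i hi j hj h3
        rw [SimpleGraph.edist_eq_one_iff_adj.mpr (hs.adj i hi j hj h)] at h1
        exact absurd h1 (by norm_num)
      · have h1 := hs.l3 i hi j hj h3
        have h2 : G.edist (e i) (e j) ≤ 1 + 1 := by
          refine (SimpleGraph.edist_triangle (v := e m)).trans ?_
          rw [SimpleGraph.edist_eq_one_iff_adj.mpr (hs.adj i hi m hm h),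
            SimpleGraph.edist_eq_one_iff_adj.mpr (hs.adj m hm j hj h')]
        have h4 := h1.trans h2
        exact absurd h4 (by decide)
    · -- edge
      rw [check] at h
      simp only [Bool.and_eq_true, decide_eq_true_eq, bne_iff_ne, ne_eq] at h
      obtain ⟨⟨⟨⟨hi, hj⟩, hij⟩, h1⟩, h2⟩ := h
      by_cases hd : 2 ≤ G.edist (e i) (e j)
      · refine ih _ _ _ _ _ h2 G e ⟨hs.le, hs.inj, hs.adj, ?_, hs.l3⟩
        intro a ha b hb hab
        rcases rel_cons (by omega) (by omega) (by omega) (by omega) hab with
          h3 | ⟨rfl, rfl⟩ | ⟨rfl, rfl⟩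
        · exact hs.l2 a ha b hb h3
        · exact hd
        · rw [SimpleGraph.edist_comm]; exact hd
      · have hadj : G.Adj (e i) (e j) :=
          adj_of_edist_lt_two (fun h => hij (hs.inj i hi j hj h)) hd
        refine ih _ _ _ _ _ h1 G e ⟨hs.le, hs.inj, ?_, hs.l2, hs.l3⟩
        intro a ha b hb hab
        rcases rel_cons (by omega) (by omega) (by omega) (by omega) hab with
          h3 | ⟨rfl, rfl⟩ | ⟨rfl, rfl⟩
        · exact hs.adj a ha b hb h3
        · exact hadj
        · exact hadj.symm
    · -- a list of trees
      rw [check] at h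
      exact absurd h (by simp)
    · -- two
      rw [check] at h
      simp only [Bool.and_eq_true, decide_eq_true_eq, bne_iff_ne, ne_eq, List.all_eq_true,
        List.mem_range, Bool.or_eq_true, beq_iff_eq, Bool.not_eq_true'] at h
      obtain ⟨⟨⟨⟨⟨⟨⟨⟨hi, hj⟩, hij⟩, hn⟩, hL2⟩, hfr⟩, hws⟩, hz⟩, h3⟩ := h
      by_cases hd : 3 ≤ G.edist (e i) (e j)
      · refine ih _ _ _ _ _ h3 G e ⟨hs.le, hs.inj, hs.adj, hs.l2, ?_⟩
        intro a ha b hb hab
        rcases rel_cons (by omega) (by omega) (by omega) (by omega) hab with
          h3 | ⟨rfl, rfl⟩ | ⟨rfl, rfl⟩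
        · exact hs.l3 a ha b hb h3
        · exact hd
        · rw [SimpleGraph.edist_comm]; exact hd
      · obtain ⟨z, hz1, hz2⟩ := exists_common_of_edist (hs.l2 i hi j hj hL2) hd
        by_cases hzr : ∃ w < n, e w = z
        · obtain ⟨w, hw, rfl⟩ := hzr
          rcases hws w hw with (h4 | h4) | h4
          · subst h4; exact absurd hz1 (G.irrefl)
          · subst h4; exact absurd hz2 (G.irrefl)
          · refine ih _ _ _ _ _ h4 G e ⟨hs.le, hs.inj, ?_, hs.l2, hs.l3⟩
            intro a ha b hb hab
            rcases rel_cons (by omega) (by omega) (by omega) (by omega) hab with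
              h5 | ⟨rfl, rfl⟩ | ⟨rfl, rfl⟩
            · rcases rel_cons (by omega) (by omega) (by omega) (by omega) h5 with
                h5 | ⟨rfl, rfl⟩ | ⟨rfl, rfl⟩
              · exact hs.adj a ha b hb h5
              · exact hz2
              · exact hz2.symm
            · exact hz1
            · exact hz1.symm
        · push Not at hzr
          have eold : ∀ a < n, Function.update e n z a = e a := by
            intro a ha
            rw [Function.update_of_ne (by omega)]
          have enew : Function.update e n z n = z := Function.update_self ..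
          refine ih _ _ _ _ _ hz G (Function.update e n z) ⟨by omega, ?_, ?_, ?_, ?_⟩
          · intro a ha b hb hab
            rcases Nat.lt_or_ge a n with ha' | ha'
            · rcases Nat.lt_or_ge b n with hb' | hb'
              · rw [eold a ha', eold b hb'] at hab
                exact hs.inj a ha' b hb' hab
              · have : b = n := by omega
                subst this
                rw [eold a ha', enew] at hab
                exact absurd hab (hzr a ha')
            · have : a = n := by omega
              subst this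
              rcases Nat.lt_or_ge b a with hb' | hb'
              · rw [eold b hb', enew] at hab
                exact absurd hab.symm (hzr b hb')
              · omega
          · intro a ha b hb hab
            rcases rel_cons (by omega) (by omega) (by omega) (by omega) hab with
              h5 | ⟨rfl, rfl⟩ | ⟨rfl, rfl⟩
            · rcases rel_cons (by omega) (by omega) (by omega) (by omega) h5 with
                h6 | ⟨rfl, rfl⟩ | ⟨rfl, rfl⟩
              · rcases Nat.lt_or_ge a n with ha' | ha'
                · rcases Nat.lt_or_ge b n with hb' | hb'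
                  · rw [eold a ha', eold b hb']
                    exact hs.adj a ha' b hb' h6
                  · have : b = n := by omega
                    subst this
                    rw [(hfr a ha).1.1] at h6
                    exact absurd h6 (by simp)
                · have : a = n := by omega
                  subst this
                  rw [rel_comm, (hfr b hb).1.1] at h6
                  exact absurd h6 (by simp)
              · rw [enew, eold b hj]; exact hz2
              · rw [enew, eold a hj]; exact hz2.symm
            · rw [enew, eold b hi]; exact hz1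
            · rw [enew, eold a hi]; exact hz1.symm
          · have hder : ∀ a < n, (rel L3 a i = true ∨ rel L3 a j = true) →
                2 ≤ G.edist (e a) z := by
              intro a ha hr
              have aux : ∀ c, G.Adj z c → 3 ≤ G.edist (e a) c → 2 ≤ G.edist (e a) z := by
                intro c hc h6
                by_contra h7
                have h8 : G.edist (e a) z < 2 := not_le.mp h7
                obtain ⟨k, hk⟩ := ENat.ne_top_iff_exists.mp (ne_top_of_lt h8)
                rw [← hk] at h8
                have h9 : k < 2 := by exact_mod_cast h8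
                have h10 : G.edist (e a) c ≤ G.edist (e a) z + G.edist z c :=
                  SimpleGraph.edist_triangle
                rw [SimpleGraph.edist_eq_one_iff_adj.mpr hc, ← hk] at h10
                have h11 := h6.trans h10
                have h12 : 3 ≤ k + 1 := by exact_mod_cast h11
                omega
              rcases hr with hr | hr
              · exact aux _ hz1 (hs.l3 a ha i hi hr)
              · exact aux _ hz2 (hs.l3 a ha j hj hr)
            intro a ha b hb hab
            rcases rel_append_map (by omega) (by omega) (by omega)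
              (by intro a ha; simp only [List.mem_filter, List.mem_range] at ha; omega) hab with
              h5 | ⟨h5, rfl⟩ | ⟨h5, rfl⟩
            · rcases Nat.lt_or_ge a n with ha' | ha'
              · rcases Nat.lt_or_ge b n with hb' | hb'
                · rw [eold a ha', eold b hb']
                  exact hs.l2 a ha' b hb' h5
                · have : b = n := by omega
                  subst this
                  rw [(hfr a ha).1.2] at h5
                  exact absurd h5 (by simp)
              · have : a = n := by omega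
                subst this
                rw [rel_comm, (hfr b hb).1.2] at h5
                exact absurd h5 (by simp)
            · simp only [List.mem_filter, List.mem_range, Bool.or_eq_true] at h5
              rw [enew, eold a h5.1]
              exact hder a h5.1 h5.2
            · simp only [List.mem_filter, List.mem_range, Bool.or_eq_true] at h5
              rw [enew, eold b h5.1, SimpleGraph.edist_comm]
              exact hder b h5.1 h5.2
          · intro a ha b hb h5
            rcases Nat.lt_or_ge a n with ha' | ha'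
            · rcases Nat.lt_or_ge b n with hb' | hb'
              · rw [eold a ha', eold b hb']
                exact hs.l3 a ha' b hb' h5
              · have : b = n := by omega
                subst this
                rw [(hfr a ha).2] at h5
                exact absurd h5 (by simp)
            · have : a = n := by omega
              subst this
              rw [rel_comm, (hfr b hb).2] at h5
              exact absurd h5 (by simp)

/-- The configurations used in the case distinction, with their certificates. -/
def libC : List (Conf × List ℕ × List ℕ) := [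
  ((5, [31, 23, 15, 13, 19], [], []), [4680, 5185, 8713, 8273, 1161], [29, 27, 7, 30]),
  ((7, [31, 15, 71, 43, 113, 56, 84], [], []), [594504, 598593, 369673, 827529, 296081, 529106,
    71250], [122, 57, 27, 110, 118, 124, 15, 23, 85]),
  ((8, [23, 43, 77, 30, 57, 178, 196, 224], [], []), [6886472, 5022337, 4563473, 6885450,
    5014161, 2626762, 2176090, 304787], [185, 171, 27, 51, 58, 217, 203, 211, 218, 242, 173, 29,
    181, 188, 15, 167, 174, 205, 229, 236, 117, 124, 244, 103, 110, 230, 87, 94, 118]),
  ((12, [679, 31, 15, 14, 114, 49, 2384, 1409, 960, 1793, 3712, 3136], [], []), [28087985224,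
    29314585153, 37904785929, 39131652170, 20843889802, 29314520721, 11026896595, 18539427473,
    19464038618, 18275186321, 8760441050, 1380296987], [976, 30, 946, 685, 897, 693, 61, 369, 7,
    27, 51, 3008, 2418, 2881, 2497, 1728, 1920, 1456, 1394, 1665, 1857, 1473, 1585, 3904, 3520,
    3760, 3408, 3186, 3841, 3457, 3665, 3281, 3185]),
  ((5, [15, 23, 15, 29, 26], [], []), [8776, 5185, 8713, 4177, 650], [13, 27, 7, 30]),
  ((6, [15, 39, 15, 29, 56, 50], [], []), [74312, 42049, 74249, 69713, 33426, 5258], [7, 27, 43,
    13, 30, 46]),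
  ((6, [15, 23, 39, 57, 26, 44], [], []), [74312, 70721, 41993, 37009, 66186, 8786], [23, 54, 39,
    27, 29, 15, 57, 58, 43, 60, 45]),
  ((7, [55, 79, 7, 26, 25, 97, 98], [], []), [562248, 336449, 599049, 626826, 852625, 272017,
    46218], [29, 101, 53, 121, 78, 30, 102, 122, 15, 71, 27, 23, 39, 99]),
  ((10, [31, 419, 525, 29, 57, 114, 480, 706, 834, 900], [], []), [307040840, 287876225,
    172859921, 325914705, 459834001, 440669386, 287352531, 168113802, 138753674, 19510354], [377,
    249, 450, 434, 355, 227, 27, 29, 15, 23, 960, 905, 898, 866, 738, 818, 690, 868, 740, 572,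
    901, 838, 710, 807, 679]),
  ((11, [791, 175, 135, 58, 89, 1066, 848, 134, 321, 577, 1056], [192, 1600, 16, 192, 36, 144,
    11, 41, 0, 2, 2], []), [3377009736, 2452398657, 3526173705, 2605224074, 3529835153,
    1531716234, 4454454490, 3675337802, 4570064529, 4335183505, 611366099], [190, 378, 634, 829,
    189, 345, 601, 121, 791, 115, 343, 599, 171, 159, 107, 1082]),
  ((11, [87, 139, 45, 30, 57, 308, 705, 1218, 1824, 832, 1408], [0, 1024, 0, 0, 0, 0, 0, 512, 0,
    1152, 514], []), [3544519752, 2603197057, 3664290321, 3813478474, 3664282257, 2439779418,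
    2317461137, 1376105674, 1212720795, 2168797402, 287913683], [158, 1728, 1244, 29, 151, 599,
    79, 91, 1237, 705, 1223, 1235, 203, 1920, 1856, 960, 1474, 1805, 1817, 1291, 839, 851, 60,
    1204, 174, 186, 53, 47, 59, 167, 179, 1332, 820, 1824, 302, 314, 1444, 1456, 868, 880, 301,
    313, 359, 371, 1505]),
  ((13, [1319, 31, 15, 142, 114, 561, 2256, 200, 4865, 1824, 1537, 6208, 6400], [536, 512, 0, 65,
    2561, 64, 552, 0, 0, 83, 0, 16, 0], []), [164574831688, 234516714049, 243106914825,
    304458866762, 226882782346, 234250311313, 150779008211, 228237615763, 88190301841,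
    164308494554, 240695457425, 73455216411, 12103301338], [1326, 30, 882, 29, 1397, 817, 1585,
    625, 15, 807, 1575, 23, 27, 6221, 6439, 248, 206, 242, 186, 205, 1453, 969, 745, 199, 1451,
    2264, 4494, 5005]),
  ((8, [135, 43, 29, 78, 116, 50, 88, 129], [0, 128, 128, 0, 0, 64, 32, 6], []), [2958408,
    4760193, 4788753, 6627402, 6587474, 6821002, 8458899, 1160849], [120, 58, 114, 106, 51, 43,
    91, 60, 116, 30, 181, 157, 93, 135, 79]),
  ((9, [91, 39, 30, 141, 53, 114, 353, 392, 448], [256, 0, 0, 0, 0, 0, 0, 0, 1], []), [38081160,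
    57189441, 55382538, 36282449, 57181265, 40113802, 21013713, 17412762, 2438362], [339, 51,
    370, 481, 155, 457, 185, 171, 121, 107, 233, 442, 23, 470, 341, 327, 54, 117, 103, 158, 93,
    79, 397, 333, 124, 110, 61, 47, 444, 430, 492]),
  ((13, [423, 31, 15, 14, 1074, 113, 4576, 705, 833, 2944, 7184, 3584, 5184], [], []),
    [235437335624, 234516976193, 312900133385, 313053519946, 156152398986, 165796910737,
    96924117210, 158008161937, 157978801809, 216915359962, 77635065555, 138685557019,
    18694351131], [1504, 30, 429, 449, 1461, 1085, 241, 369, 1137, 7, 27, 1075, 115, 960, 752,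
    880, 897, 689, 817, 3984, 2994, 3634, 2753, 2881, 3633, 5568, 4576, 7280, 7218, 7361, 7489,
    7265, 6032, 4801, 4929, 6880, 7008, 7760, 7825, 7953]),
  ((9, [279, 47, 15, 142, 113, 50, 464, 200, 321], [96, 0, 0, 0, 0, 65, 33, 0, 0], []),
    [23663688, 38576705, 38609417, 53030986, 38045329, 57152650, 18945242, 33923731, 4564625],
    [46, 285, 345, 309, 369, 15, 327, 39, 43, 51, 188, 222, 186, 498, 185, 135]),
  ((7, [51, 71, 30, 108, 21, 41, 74], [72, 0, 0, 17, 8, 0, 1], []), [562312, 336961, 594442,
    303186, 853073, 533137, 78474], [29, 30, 71, 75, 60, 105, 45, 57, 46, 99, 39, 43]),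
  ((11, [151, 335, 135, 58, 537, 360, 98, 133, 290, 1552, 1536], [96, 176, 72, 644, 162, 659, 5,
    570, 0, 168, 0], [32, 0, 0, 128, 0, 641, 0, 552, 0, 160, 0]), [3525940296, 4718928449,
    4733903881, 3530068106, 2337079953, 4723057363, 5945472138, 4748879441, 5912441994,
    1148294362, 227944227], [429, 237, 669, 825, 862, 670, 314, 122, 207, 303, 111, 687, 151,
    795, 475, 667, 119, 59, 1082, 1359])]

def lib : List Conf := libC.map (fun c => c.1)

theorem libC_ok : (libC.all fun c =>
    certOK c.1.1 c.1.2.1 c.1.2.2.1 c.1.2.2.2 c.2.1 c.2.2) = true := by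
  decide +kernel

theorem lib_obs : ∀ c ∈ lib, Obs.{u} c.1 c.2.1 c.2.2.1 c.2.2.2 := by
  intro c hc
  rw [lib, List.mem_map] at hc
  obtain ⟨d, hd, rfl⟩ := hc
  exact obs_of_cert (List.all_eq_true.mp libC_ok d hd)

/-- The edges of the graph `graphH`. -/
def edgesH : List (ℕ × ℕ) := [(0, 6), (0, 9), (1, 6), (1, 9), (2, 7), (3, 4), (3, 8), (3, 9),
  (4, 8), (5, 6), (5, 7), (5, 9), (7, 8), (8, 9), (2, 10), (0, 11), (1, 11), (10, 11)]

/-- The case distinction which shows that a graph containing `graphH` contains one of the
configurations of the library. -/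
def tree : Tree :=
  (.edge 1 3 (.leaf 0 [3, 9, 8, 4, 1])
  (.edge 1 8 (.leaf 0 [8, 9, 3, 4, 1])
  (.edge 2 4 (.leaf 1 [8, 3, 9, 4, 7, 2, 5])
  (.edge 2 5 (.leaf 2 [0, 9, 11, 1, 6, 5, 10, 2])
  (.edge 2 6 (.leaf 3 [9, 8, 3, 4, 7, 5, 2, 1, 6, 0, 11, 10])
  (.edge 3 5 (.leaf 0 [3, 9, 8, 4, 5])
  (.edge 4 5 (.leaf 4 [3, 9, 8, 4, 5])
  (.edge 4 6 (.leaf 5 [3, 4, 8, 9, 0, 6])
  (.edge 4 7 (.leaf 0 [8, 4, 3, 9, 7])
  (.edge 4 9 (.leaf 5 [3, 8, 4, 9, 5, 7])
  (.edge 6 7 (.leaf 6 [5, 6, 7, 9, 0, 8])
  (.edge 6 8 (.leaf 7 [8, 9, 3, 0, 6, 7, 5])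
  (.edge 6 9 (.leaf 4 [6, 1, 9, 0, 11])
  (.edge 7 9 (.leaf 0 [8, 9, 3, 4, 7])
  (.two 2 4 (.pair (.leaf 4 [3, 9, 8, 4, 0]) (.pair (.leaf 4 [3, 9, 8, 4, 1]) (.pair .bad
    (.pair (.leaf 6 [8, 3, 9, 7, 2, 5]) (.pair .bad (.pair .bad (.pair .bad (.pair .bad (.pair
    (.edge 8 10 (.leaf 8 [8, 9, 10, 2, 7, 5, 6, 1, 0, 11])
   (.leaf 9 [9, 8, 3, 7, 5, 2, 6, 4, 0, 1, 10])) (.pair .bad (.pair (.leaf 10 [9, 5, 0, 6, 1,
    11, 8, 7, 10, 4, 2]) (.pair (.leaf 2 [0, 9, 11, 1, 6, 5, 2, 7]) .bad))))))))))))
  (.edge 7 10 (.leaf 2 [0, 9, 11, 1, 6, 5, 10, 7])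
   (.leaf 11 [9, 8, 3, 4, 7, 5, 2, 12, 0, 6, 1, 10, 11]))
  (.two 2 6 (.pair (.leaf 12 [8, 7, 9, 5, 0, 2, 6, 4]) (.pair (.leaf 12 [8, 7, 9, 5, 1, 2, 6,
    4]) (.pair .bad (.pair .bad (.pair .bad (.pair .bad (.pair .bad (.pair .bad (.pair .bad
    (.pair .bad (.pair (.leaf 13 [6, 1, 11, 10, 0, 9, 5, 2, 7]) (.pair (.leaf 2 [0, 9, 11, 1,
    6, 5, 2, 7]) .bad))))))))))))
  (.leaf 14 [9, 8, 3, 4, 7, 5, 6, 0, 1, 11, 2, 10, 12])
  (.two 4 5 (.pair (.leaf 4 [0, 9, 5, 6, 1]) (.pair (.leaf 4 [1, 9, 5, 6, 0]) (.pair .bad
    (.pair .bad (.pair .bad (.pair .bad (.pair .bad (.pair .bad (.pair (.leaf 0 [8, 9, 3, 4,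
    5]) (.pair .bad (.pair .bad (.pair (.leaf 2 [0, 11, 9, 1, 6, 5, 8, 7]) .bad))))))))))))
  (.leaf 5 [3, 4, 8, 9, 5, 12])
  (.two 4 6 (.pair (.leaf 4 [3, 9, 8, 4, 0]) (.pair (.leaf 4 [3, 9, 8, 4, 1]) (.pair .bad
    (.pair (.leaf 6 [9, 3, 8, 5, 6, 7]) (.pair .bad (.pair .bad (.pair .bad (.pair .bad (.pair
    .bad (.pair .bad (.pair .bad (.pair (.leaf 4 [6, 1, 11, 0, 9]) .bad))))))))))))
  (.leaf 15 [9, 8, 3, 4, 5, 7, 6, 12, 0])
  (.two 6 8 (.pair (.leaf 0 [8, 9, 3, 4, 0]) (.pair .bad (.pair .bad (.pair .bad (.pair .bad
    (.pair .bad (.pair .bad (.pair .bad (.pair .bad (.pair .bad (.pair .bad (.pair (.leaf 2 [0,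
    9, 11, 1, 6, 5, 8, 7]) .bad))))))))))))
  (.leaf 16 [8, 9, 5, 6, 7, 12, 1])
  (.leaf 17 [8, 9, 3, 5, 7, 6, 1, 4, 0, 2, 10]))))))))))))))))))))

theorem tree_ok : check lib 60 12 (edgesH.map fun p => 16 * p.1 + p.2) [] [] tree = true := by
  decide +kernel

/-- The closed neighbourhoods of `graphG`. -/
def AG : List ℕ := [2625, 2626, 5252, 792, 4376, 736, 99, 420, 920, 811, 3076, 3075, 4116]

/-- The distances in `graphG`. -/
def DG : List ℕ := [285789730000, 285789729986, 87412254235, 167659770066, 106590995099,
  235319604370, 295602013897, 165642019931, 166567154322, 226581062345, 146486966354,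
  207557871241, 28358841444]

/-- The strategy of the cop: `(S, C, p)` means that she probes `p` if the possible positions are
in `S`, and those which are possible if the robber stays in `graphH` are in `C`. -/
def table : List (ℕ × ℕ × ℕ) := [(8191, 4095, 10), (5115, 1019, 7), (7159, 3047, 7), (4991,
  891, 6), (6012, 1916, 5), (6044, 920, 9), (6044, 1948, 9), (4540, 444, 4), (5540, 1444, 9),
  (504, 504, 4), (5004, 904, 9), (408, 408, 7), (4888, 792, 8), (888, 888, 8), (843, 843, 8),
  (4667, 571, 6), (6279, 2183, 7), (2723, 2723, 7), (2627, 2627, 9), (3651, 3651, 9), (7452,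
  3356, 8), (3171, 3171, 11), (3079, 3079, 9), (1607, 1607, 9), (2115, 2115, 0), (3170, 3170,
  11), (1606, 1606, 6), (7316, 3204, 7), (4632, 536, 0), (7452, 3076, 4)]

/-! ### The two graphs -/

/-- The graph on `Fin n` with the given edges. -/
def graphOf (n : ℕ) (L : List (ℕ × ℕ)) : SimpleGraph (Fin n) where
  Adj i j := i ≠ j ∧ ((i.val, j.val) ∈ L ∨ (j.val, i.val) ∈ L)
  symm := ⟨fun _ _ h => ⟨h.1.symm, h.2.symm⟩⟩
  loopless := ⟨fun _ h => h.1 rfl⟩

instance (n : ℕ) (L : List (ℕ × ℕ)) : DecidableRel (graphOf n L).Adj :=
  fun i j => inferInstanceAs (Decidable (i ≠ j ∧ ((i.val, j.val) ∈ L ∨ (j.val, i.val) ∈ L)))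

/-- The graph with 12 vertices and the 18 edges of the list `edgesH`. -/
def graphH : SimpleGraph (Fin 12) := graphOf 12 edgesH

/-- The graph `graphH` with a further vertex `12`, which is adjacent to `2` and `4`. -/
def graphG : SimpleGraph (Fin 13) := graphOf 13 (edgesH ++ [(2, 12), (4, 12)])

instance : DecidableRel graphH.Adj := inferInstanceAs (DecidableRel (graphOf 12 edgesH).Adj)

instance : DecidableRel graphG.Adj :=
  inferInstanceAs (DecidableRel (graphOf 13 (edgesH ++ [(2, 12), (4, 12)])).Adj)

/-- The mask of the numbers `w < n` with `P w`. -/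
def mk (n : ℕ) (P : ℕ → Bool) : ℕ :=
  (List.range n).foldl (fun m w => if P w then m ||| (1 <<< w) else m) 0

lemma testBit_mk (n : ℕ) (P : ℕ → Bool) (w : ℕ) :
    (mk n P).testBit w = (decide (w < n) && P w) := by
  induction n with
  | zero => simp [mk]
  | succ n ih =>
    rw [mk, List.range_succ, List.foldl_append, List.foldl_cons, List.foldl_nil]
    change (if P n then mk n P ||| (1 <<< n) else mk n P).testBit w = _
    by_cases hP : P n
    · rw [if_pos hP, Nat.testBit_or, ih, Nat.one_shiftLeft, Nat.testBit_two_pow]
      by_cases h1 : n = w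
      · subst h1; simp [hP]
      · have h2 : (w < n + 1) ↔ (w < n) := by omega
        simp [h1, h2]
    · rw [if_neg hP, ih]
      by_cases h1 : n = w
      · subst h1
        have : P n = false := by simpa using hP
        simp [this]
      · have h2 : (w < n + 1) ↔ (w < n) := by omega
        simp [h2]

/-- The possible positions after the probe `p`, the answer `a` and the move of the robber. -/
def nextS (S p a : ℕ) : ℕ :=
  mk 13 fun w => (w != p) && (List.range 13).any fun v =>
    S.testBit v && (dd DG v p == a) && (gt AG v).testBit w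

/-- The same for a robber who stays in `graphH`. -/
def nextC (C p a : ℕ) : ℕ :=
  mk 13 fun w => (w != p) && (w != 12) && (List.range 13).any fun v =>
    C.testBit v && (dd DG v p == a) && (gt AG v).testBit w

/-- The set with the mask `a` is contained in the set with the mask `b`. -/
def subm (a b : ℕ) : Bool := a &&& b == a

/-- The last entry of the table which contains the given state. -/
def look : List (ℕ × ℕ × ℕ) → ℕ → ℕ → Option ℕ
  | [], _, _ => none
  | e :: l, S, C =>
    match look l S C with
    | some p => some p
    | none => if subm S e.1 && subm C e.2.1 then some e.2.2 else none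

def covered (l : List (ℕ × ℕ × ℕ)) (S C : ℕ) : Bool := l.any fun e => subm S e.1 && subm C e.2.1

def entryOK (e : ℕ × ℕ × ℕ) (l : List (ℕ × ℕ × ℕ)) : Bool :=
  decide (e.2.2 < 13) && (List.range 8).all fun a =>
    (!(List.range 13).any fun v => e.2.1.testBit v && (dd DG v e.2.2 == a)) ||
    ((List.range 13).all fun v => (List.range 13).all fun w => (v == w) ||
      !(e.1.testBit v && (dd DG v e.2.2 == a)) || !(e.1.testBit w && (dd DG w e.2.2 == a))) ||
    covered l (nextS e.1 e.2.2 a) (nextC e.2.1 e.2.2 a)

def tableOK : List (ℕ × ℕ × ℕ) → Bool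
  | [] => true
  | e :: l => entryOK e l && tableOK l

theorem table_ok : tableOK table = true := by decide +kernel


/-! ### The strategy of the cop on `graphG` -/

lemma subm_iff {a b : ℕ} : subm a b = true ↔ ∀ i, a.testBit i = true → b.testBit i = true := by
  rw [subm, beq_iff_eq]
  constructor
  · intro h i hi
    rw [← h, Nat.testBit_and, Bool.and_eq_true] at hi
    exact hi.2
  · intro h
    apply Nat.eq_of_testBit_eq
    intro i
    rw [Nat.testBit_and]
    by_cases hi : a.testBit i = true
    · rw [hi, h i hi]; rfl
    · have : a.testBit i = false := by simpa using hi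
      rw [this]; rfl

lemma subm_trans {a b c : ℕ} (h1 : subm a b = true) (h2 : subm b c = true) :
    subm a c = true := by
  rw [subm_iff] at *
  exact fun i hi => h2 i (h1 i hi)

lemma nextS_mono {S S' p a : ℕ} (h : subm S S' = true) :
    subm (nextS S p a) (nextS S' p a) = true := by
  rw [subm_iff] at *
  intro i
  simp only [nextS, testBit_mk, Bool.and_eq_true, List.any_eq_true]
  rintro ⟨h1, h2, v, hv, ⟨h3, h4⟩, h5⟩
  exact ⟨h1, h2, v, hv, ⟨h v h3, h4⟩, h5⟩

lemma nextC_mono {S S' p a : ℕ} (h : subm S S' = true) :
    subm (nextC S p a) (nextC S' p a) = true := by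
  rw [subm_iff] at *
  intro i
  simp only [nextC, testBit_mk, Bool.and_eq_true, List.any_eq_true]
  rintro ⟨h1, h2, v, hv, ⟨h3, h4⟩, h5⟩
  exact ⟨h1, h2, v, hv, ⟨h v h3, h4⟩, h5⟩

lemma covered_mono {l : List (ℕ × ℕ × ℕ)} {S S' C C' : ℕ} (hS : subm S S' = true)
    (hC : subm C C' = true) (h : covered l S' C' = true) : covered l S C = true := by
  simp only [covered, List.any_eq_true, Bool.and_eq_true] at *
  obtain ⟨e, he, h1, h2⟩ := h
  exact ⟨e, he, subm_trans hS h1, subm_trans hC h2⟩

lemma look_isSome {l : List (ℕ × ℕ × ℕ)} {S C : ℕ} :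
    (look l S C).isSome = covered l S C := by
  induction l with
  | nil => rfl
  | cons e l ih =>
    rw [look, covered, List.any_cons]
    rw [covered] at ih
    rw [← ih]
    rcases h : look l S C with _ | p
    · dsimp only
      split_ifs with h1
      · simp [h1]
      · have : (subm S e.1 && subm C e.2.1) = false := by simpa using h1
        simp [this]
    · simp

lemma look_append {l₁ l₂ : List (ℕ × ℕ × ℕ)} {S C p : ℕ} (h : look l₂ S C = some p) :
    look (l₁ ++ l₂) S C = some p := by
  induction l₁ with
  | nil => exact h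
  | cons e l ih =>
    rw [List.cons_append, look, ih]

def probeOf (s : ℕ × ℕ) : ℕ := (look table s.1 s.2).getD 0

def stepS (s : ℕ × ℕ) (a : ℕ∞) : ℕ × ℕ :=
  (nextS s.1 (probeOf s) a.toNat, nextC s.2 (probeOf s) a.toNat)

def stateOf (h : List ℕ∞) : ℕ × ℕ := h.foldl stepS (8191, 4095)

def cop (h : List ℕ∞) : Fin 13 := Fin.ofNat 13 (probeOf (stateOf h))

lemma look_lt {l : List (ℕ × ℕ × ℕ)} (hl : tableOK l = true) {S C p : ℕ}
    (h : look l S C = some p) : p < 13 := by
  induction l with
  | nil => rw [look] at h; exact absurd h (by simp)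
  | cons e l ih =>
    rw [tableOK, Bool.and_eq_true] at hl
    rw [look] at h
    rcases h1 : look l S C with _ | q
    · rw [h1] at h
      dsimp only at h
      split_ifs at h with h2
      have h3 := hl.1
      rw [entryOK, Bool.and_eq_true, decide_eq_true_eq] at h3
      simp only [Option.some.injEq] at h
      omega
    · rw [h1] at h
      dsimp only at h
      rw [h] at h1
      exact ih hl.2 h1

lemma probeOf_lt (s : ℕ × ℕ) : probeOf s < 13 := by
  rw [probeOf]
  rcases h : look table s.1 s.2 with _ | p
  · simp
  · simpa using look_lt table_ok h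

lemma cop_val (h : List ℕ∞) : (cop h).val = probeOf (stateOf h) := by
  rw [cop, Fin.val_ofNat]
  exact Nat.mod_eq_of_lt (probeOf_lt _)

lemma dOK_G : dOK 13 AG DG = true := by decide +kernel

lemma edist_G (v p : Fin 13) : graphG.edist v p = dd DG v p := by
  have h1 : graphG.edist v p ≤ dd DG v p := by
    have h2 := edist_le_dd (G := graphG) (e := fun i => Fin.ofNat 13 i) dOK_G
      (by
        have : ∀ i < 13, ∀ j < 13, i ≠ j → (gt AG i).testBit j = true →
            graphG.Adj (Fin.ofNat 13 i) (Fin.ofNat 13 j) := by decide +kernel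
        exact this) _ v.val v.isLt p.val p.isLt le_rfl
    have h3 : ∀ w : Fin 13, Fin.ofNat 13 w.val = w := by
      intro w
      apply Fin.ext
      rw [Fin.val_ofNat]
      exact Nat.mod_eq_of_lt w.isLt
    simpa only [h3] using h2
  have hw : ∀ u w : Fin 13, ∀ q : graphG.Walk u w, dd DG u w ≤ q.length := by
    intro u w q
    induction q with
    | nil =>
      have : ∀ u : Fin 13, dd DG u u = 0 := by decide +kernel
      rw [this]; exact Nat.zero_le _
    | cons hadj q ih =>
      rename_i a b c
      have : ∀ a b c : Fin 13, graphG.Adj a b → dd DG a c ≤ dd DG b c + 1 := by decide +kernel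
      have h3 := this a b c hadj
      rw [SimpleGraph.Walk.length_cons]
      omega
  apply le_antisymm h1
  have h5 : graphG.edist v p ≠ ⊤ := by
    intro h6
    rw [h6, top_le_iff] at h1
    exact ENat.natCast_ne_top _ h1
  obtain ⟨k, hk⟩ := ENat.ne_top_iff_exists.mp h5
  obtain ⟨q, hq⟩ := SimpleGraph.exists_walk_of_edist_eq_coe hk.symm
  rw [← hk]
  have := hw v p q
  exact_mod_cast (by omega : dd DG v p ≤ k)

lemma stateOf_succ (l : List ℕ∞) (a : ℕ∞) : stateOf (l ++ [a]) = stepS (stateOf l) a := by
  rw [stateOf, stateOf, List.foldl_append]; rfl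

lemma ans_toNat (x : ℕ → Fin 13) (t : ℕ) :
    (graphG.edist (x t) (cop (answers graphG cop x t))).toNat =
      dd DG (x t) (probeOf (stateOf (answers graphG cop x t))) := by
  rw [edist_G, cop_val]; simp

lemma closed_G : ∀ v w : Fin 13, (w = v ∨ graphG.Adj v w) → (gt AG v).testBit w = true := by
  decide +kernel

lemma inv1 (x : ℕ → Fin 13) : ∀ t, LegalUpTo graphG cop x t →
    (stateOf (answers graphG cop x t)).1.testBit (x t) = true := by
  intro t
  induction t with
  | zero =>
    intro _
    have : ∀ v : Fin 13, (8191 : ℕ).testBit v = true := by decide +kernel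
    exact this _
  | succ t ih =>
    intro hl
    have h1 := ih (hl.mono (by omega))
    obtain ⟨h2, h3⟩ := hl t (by omega)
    rw [answers, stateOf_succ]
    change (nextS _ _ _).testBit _ = true
    rw [nextS, testBit_mk, ans_toNat]
    simp only [Bool.and_eq_true, decide_eq_true_eq, bne_iff_ne, ne_eq, List.any_eq_true,
      List.mem_range, beq_iff_eq]
    refine ⟨(x (t + 1)).isLt, ?_, x t, (x t).isLt, ⟨h1, rfl⟩, closed_G _ _ h2⟩
    intro h4
    apply h3
    apply Fin.ext
    rw [cop_val]; exact h4

lemma inv2 (x : ℕ → Fin 13) : ∀ t, LegalUpTo graphG cop x t → (∀ s ≤ t, x s ≠ 12) →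
    (stateOf (answers graphG cop x t)).2.testBit (x t) = true := by
  intro t
  induction t with
  | zero =>
    intro _ hx
    have : ∀ v : Fin 13, v ≠ 12 → (4095 : ℕ).testBit v = true := by decide +kernel
    exact this _ (hx 0 le_rfl)
  | succ t ih =>
    intro hl hx
    have h1 := ih (hl.mono (by omega)) (fun s hs => hx s (by omega))
    obtain ⟨h2, h3⟩ := hl t (by omega)
    rw [answers, stateOf_succ]
    change (nextC _ _ _).testBit _ = true
    rw [nextC, testBit_mk, ans_toNat]
    simp only [Bool.and_eq_true, decide_eq_true_eq, bne_iff_ne, ne_eq, List.any_eq_true,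
      List.mem_range, beq_iff_eq]
    refine ⟨(x (t + 1)).isLt, ⟨?_, ?_⟩, x t, (x t).isLt, ⟨h1, rfl⟩, closed_G _ _ h2⟩
    · intro h4
      apply h3
      apply Fin.ext
      rw [cop_val]; exact h4
    · intro h4
      exact hx (t + 1) le_rfl (Fin.ext h4)

lemma cop_wins : ∀ l : List (ℕ × ℕ × ℕ), tableOK l = true → (∃ l', table = l' ++ l) →
    ∀ (x : ℕ → Fin 13) (t T : ℕ), LegalUpTo graphG cop x T → (∀ s ≤ T, x s ≠ 12) →
      t + l.length ≤ T + 1 →
      covered l (stateOf (answers graphG cop x t)).1 (stateOf (answers graphG cop x t)).2 = true →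
      ∃ t' ≤ T, LocatedAt graphG cop x t' := by
  intro l
  induction l with
  | nil => intro _ _ x t T _ _ _ h; simp [covered] at h
  | cons e l ih =>
    intro hl hex x t T hleg hx ht hcov
    rw [tableOK, Bool.and_eq_true] at hl
    rw [List.length_cons] at ht
    have hex' : ∃ l', table = l' ++ l := by
      obtain ⟨l', h⟩ := hex
      exact ⟨l' ++ [e], by rw [h]; simp⟩
    set st := stateOf (answers graphG cop x t) with hst
    by_cases hc : covered l st.1 st.2 = true
    · exact ih hl.2 hex' x t T hleg hx (by omega) hc
    · have hnone : look l st.1 st.2 = none := by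
        have := look_isSome (l := l) (S := st.1) (C := st.2)
        rw [Bool.eq_false_of_not_eq_true hc] at this
        simpa using this
      have hsub : subm st.1 e.1 = true ∧ subm st.2 e.2.1 = true := by
        have h1 : covered (e :: l) st.1 st.2 =
            ((subm st.1 e.1 && subm st.2 e.2.1) || covered l st.1 st.2) := rfl
        rw [h1, Bool.or_eq_true, Bool.and_eq_true] at hcov
        rcases hcov with h2 | h2
        · exact h2
        · exact absurd h2 hc
      have hlook : look (e :: l) st.1 st.2 = some e.2.2 := by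
        rw [look, hnone]
        simp [hsub.1, hsub.2]
      have hp : probeOf st = e.2.2 := by
        obtain ⟨l', h⟩ := hex
        rw [probeOf, h, look_append hlook]; rfl
      have hent := hl.1
      rw [entryOK, Bool.and_eq_true, List.all_eq_true] at hent
      set a := dd DG (x t) e.2.2 with ha
      have ha8 : a ∈ List.range 8 := by
        rw [List.mem_range]
        have := dd_le DG (x t) e.2.2
        omega
      have hlegt : LegalUpTo graphG cop x t := hleg.mono (by omega)
      have hS := inv1 x t hlegt
      have hC := inv2 x t hlegt (fun s hs => hx s (by omega))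
      rw [← hst] at hS hC
      have hS' := subm_iff.mp hsub.1 _ hS
      have hC' := subm_iff.mp hsub.2 _ hC
      rcases Bool.or_eq_true _ _ ▸ hent.2 a ha8 with h1 | h1
      · rw [Bool.or_eq_true] at h1
        rcases h1 with h1 | h1
        · exfalso
          have h2 : ((List.range 13).any fun v =>
              e.2.1.testBit v && (dd DG v e.2.2 == a)) = true := by
            rw [List.any_eq_true]
            refine ⟨x t, List.mem_range.mpr (x t).isLt, ?_⟩
            rw [Bool.and_eq_true, beq_iff_eq]
            exact ⟨hC', rfl⟩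
          rw [h2] at h1
          exact absurd h1 (by simp)
        · refine ⟨t, by omega, ?_⟩
          intro y hy hya
          have hsame : answers graphG cop y t = answers graphG cop x t := by
            rw [← take_answers graphG cop y (by omega : t ≤ t + 1), hya,
              take_answers graphG cop x (by omega : t ≤ t + 1)]
          have hSy := inv1 y t hy
          rw [hsame, ← hst] at hSy
          have hSy' := subm_iff.mp hsub.1 _ hSy
          have hlast : graphG.edist (y t) (cop (answers graphG cop y t)) =
              graphG.edist (x t) (cop (answers graphG cop x t)) := by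
            have h3 : answers graphG cop y t ++
                [graphG.edist (y t) (cop (answers graphG cop y t))] =
                answers graphG cop x t ++
                [graphG.edist (x t) (cop (answers graphG cop x t))] := hya
            have h4 := List.append_inj h3 (by rw [length_answers, length_answers])
            simpa using h4.2
          have hdy : dd DG (y t) e.2.2 = a := by
            have h3 := ans_toNat y t
            have h4 := ans_toNat x t
            rw [hlast, h4, hsame, ← hst, hp] at h3
            rw [← h3]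
          simp only [List.all_eq_true, List.mem_range, Bool.or_eq_true, beq_iff_eq,
            Bool.not_eq_true', Bool.and_eq_false_iff, beq_eq_false_iff_ne, ne_eq] at h1
          rcases h1 (y t) (y t).isLt (x t) (x t).isLt with (h5 | h5 | h5) | h5 | h5
          · exact Fin.ext h5
          · rw [hSy'] at h5; exact absurd h5 (by simp)
          · exact absurd hdy h5
          · rw [hS'] at h5; exact absurd h5 (by simp)
          · exact absurd ha.symm h5
      · apply ih hl.2 hex' x (t + 1) T hleg hx (by omega)
        rw [answers, stateOf_succ]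
        change covered l (nextS _ _ _) (nextC _ _ _) = true
        rw [ans_toNat, ← hst, hp]
        exact covered_mono (nextS_mono hsub.1) (nextC_mono hsub.2) h1

/-! ### The copies of `graphH` in `graphG` -/

def ordH : List ℕ := [3, 9, 8, 4, 7, 5, 6, 1, 0, 11, 10, 2]

def back : List (List ℕ) :=
  [[], [0], [0, 1], [0, 2], [2], [1, 4], [5], [1, 6], [1, 6], [7, 8], [9], [4, 10]]

def srch : ℕ → List ℕ → Bool
  | 0, l => !l.contains 12
  | f + 1, l => (List.range 13).all fun v => l.contains v ||
      !((back.getD l.length []).all fun i => (gt AG (gt l i)).testBit v) || srch f (l ++ [v])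

lemma srch_ok : srch 12 [] = true := by decide +kernel

lemma srch_sound (g : ℕ → ℕ) (hlt : ∀ k < 12, g k < 13)
    (hinj : ∀ i < 12, ∀ j < 12, g i = g j → i = j)
    (hadj : ∀ k < 12, ∀ i ∈ back.getD k [], i < k ∧ (gt AG (g i)).testBit (g k) = true) :
    ∀ f k, k + f = 12 → srch f ((List.range k).map g) = true → ∀ i < 12, g i ≠ 12 := by
  intro f
  induction f with
  | zero =>
    intro k hk h i hi h12
    have : k = 12 := by omega
    subst this
    rw [srch] at h
    have h1 : ((List.range 12).map g).contains 12 = true := by
      rw [List.contains_eq_mem, decide_eq_true_eq, List.mem_map]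
      exact ⟨i, List.mem_range.mpr hi, h12⟩
    rw [h1] at h
    exact absurd h (by simp)
  | succ f ih =>
    intro k hk h
    rw [srch, List.all_eq_true] at h
    have h1 := h (g k) (List.mem_range.mpr (hlt k (by omega)))
    rw [Bool.or_eq_true, Bool.or_eq_true] at h1
    rcases h1 with (h1 | h1) | h1
    · exfalso
      rw [List.contains_eq_mem, decide_eq_true_eq, List.mem_map] at h1
      obtain ⟨j, hj, h2⟩ := h1
      rw [List.mem_range] at hj
      have := hinj j (by omega) k (by omega) h2
      omega
    · exfalso
      rw [List.length_map, List.length_range] at h1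
      have h2 : ((back.getD k []).all fun i =>
          (gt AG (gt ((List.range k).map g) i)).testBit (g k)) = true := by
        rw [List.all_eq_true]
        intro i hi
        obtain ⟨h3, h4⟩ := hadj k (by omega) i hi
        have h5 : gt ((List.range k).map g) i = g i := by
          rw [gt, List.getD_eq_getElem _ _ (by simpa using h3)]
          simp
        rw [h5]; exact h4
      rw [h2] at h1
      exact absurd h1 (by simp)
    · apply ih (k + 1) (by omega)
      rw [List.range_succ, List.map_append]
      exact h1

lemma copy_ne (f : SimpleGraph.Copy graphH graphG) (i : Fin 12) : f.toHom i ≠ 12 := by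
  set g : ℕ → ℕ := fun k => (f.toHom (Fin.ofNat 12 (gt ordH k))).val with hg
  have h := srch_sound g (fun k _ => (f.toHom _).isLt)
    (by
      intro i hi j hj hij
      have h1 : Fin.ofNat 12 (gt ordH i) = Fin.ofNat 12 (gt ordH j) :=
        f.injective' (Fin.ext hij)
      have h2 : ∀ i < 12, ∀ j < 12, Fin.ofNat 12 (gt ordH i) = Fin.ofNat 12 (gt ordH j) →
        i = j := by decide +kernel
      exact h2 i hi j hj h1)
    (by
      intro k hk i hi
      have h2 : ∀ k < 12, ∀ i ∈ back.getD k [], i < k ∧
          graphH.Adj (Fin.ofNat 12 (gt ordH i)) (Fin.ofNat 12 (gt ordH k)) := by decide +kernel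
      obtain ⟨h3, h4⟩ := h2 k hk i hi
      exact ⟨h3, closed_G _ _ (Or.inr (f.toHom.map_adj h4))⟩)
    12 0 rfl srch_ok
  have h3 : ∀ i : Fin 12, ∃ k < 12, Fin.ofNat 12 (gt ordH k) = i := by decide +kernel
  obtain ⟨k, hk, hki⟩ := h3 i
  have := h k hk
  intro h4
  apply this
  change (f.toHom (Fin.ofNat 12 (gt ordH k))).val = 12
  rw [hki, h4]; rfl


/-! ### The theorem -/

lemma not_locatable_of_contains {V : Type u} (K : SimpleGraph V) (h : graphH.IsContained K) :
    ¬ Locatable K := by
  obtain ⟨f⟩ := h
  apply check_sound lib lib_obs 60 12 _ [] [] tree tree_ok K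
    (fun i => f.toHom (Fin.ofNat 12 i))
  have hofNat : ∀ i < 12, ∀ j < 12, Fin.ofNat 12 i = Fin.ofNat 12 j → i = j := by decide +kernel
  have hadj : ∀ i < 12, ∀ j < 12, rel (edgesH.map fun p => 16 * p.1 + p.2) i j = true →
      graphH.Adj (Fin.ofNat 12 i) (Fin.ofNat 12 j) := by decide +kernel
  refine ⟨by norm_num, ?_, ?_, ?_, ?_⟩
  · intro i hi j hj hij
    exact hofNat i hi j hj (f.injective' hij)
  · intro i hi j hj hij
    exact f.toHom.map_adj (hadj i hi j hj hij)
  · intro i _ j _ h; simp [rel] at h
  · intro i _ j _ h; simp [rel] at h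

lemma cop_beats (f : SimpleGraph.Copy graphH graphG) : CopBeats graphG (Set.range f) := by
  refine ⟨cop, 29, ?_⟩
  intro x hleg hx
  have hx' : ∀ s ≤ 29, x s ≠ 12 := by
    intro s hs h12
    obtain ⟨i, hi⟩ := hx s hs
    exact copy_ne f i (hi.trans h12)
  refine cop_wins table table_ok ⟨[], rfl⟩ x 0 29 hleg hx' (by decide) ?_
  have : covered table 8191 4095 = true := by decide +kernel
  exact this

lemma CopBeats.not_robberWinsIn {V : Type u} {G : SimpleGraph V} {X : Set V}
    (h : CopBeats G X) : ¬ RobberWinsIn G X := by
  intro hr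
  obtain ⟨σ, T, hT⟩ := h
  obtain ⟨x, hleg, hx, hloc⟩ := hr σ
  obtain ⟨t, _, ht⟩ := hT x (hleg T) (fun s _ => hx s)
  exact hloc t ht

/-- Every graph which contains `graphH` as a subgraph (in particular, every graph which contains
`graphH` as an induced subgraph) is non-locatable. The graph `graphG` contains `graphH` as an
induced subgraph (in particular, as a subgraph). For every copy of `graphH` in `graphG`, induced or
not, the cop has a strategy on `graphG` which locates within a bounded number of rounds every
robber who stays in this copy. So no winning strategy of the robber on `graphG` stays in a copy of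
`graphH`. -/
theorem result :
    (∀ (V : Type u) (K : SimpleGraph V), graphH.IsContained K → ¬ Locatable K) ∧
    (∀ (V : Type u) (K : SimpleGraph V), graphH.IsIndContained K → ¬ Locatable K) ∧
    graphH.IsContained graphG ∧ graphH.IsIndContained graphG ∧
    (∀ f : SimpleGraph.Copy graphH graphG,
      CopBeats graphG (Set.range f) ∧ ¬ RobberWinsIn graphG (Set.range f)) ∧
    (∀ f : graphH ↪g graphG,
      CopBeats graphG (Set.range f) ∧ ¬ RobberWinsIn graphG (Set.range f)) := by
  have hemb : graphH.IsIndContained graphG := by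
    refine ⟨⟨⟨fun i => Fin.castSucc i, Fin.castSucc_injective 12⟩, ?_⟩⟩
    intro a b
    have : ∀ a b : Fin 12, graphG.Adj (Fin.castSucc a) (Fin.castSucc b) ↔ graphH.Adj a b := by
      decide +kernel
    exact this a b
  refine ⟨fun V K h => not_locatable_of_contains K h,
    fun V K h => not_locatable_of_contains K h.isContained, hemb.isContained, hemb, ?_, ?_⟩
  · intro f
    exact ⟨cop_beats f, (cop_beats f).not_robberWinsIn⟩
  · intro f
    have h := cop_beats f.toCopy
    exact ⟨h, h.not_robberWinsIn⟩

end Pool.Agent.Results.MP_03a3ac_co.MustLeave
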